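import Mathlib
import Pool.Agent.Lib.MP_da225d_gt.Helper47ArcLike
import Pool.Agent.Lib.MP_da225d_gt.Helper47Plane

/-!
# MP_da225d_gt: inverse limits of trees with simplicial bonding maps

If a continuum is the inverse limit of finite trees with surjective simplicial bonding maps
(for instance the inverse limit of a Markov map of a tree) and the plane contains uncountably many
pairwise disjoint copies of it, then it is arc-like, and so it has span zero.
-/

set_option autoImplicit false

open Set Pool.Agent.Helper47.Span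

namespace Pool.Agent.Results.MP_da225d_gt.SimplicialLimits

theorem isCompact_limit (V : ℕ → Type) [∀ n, Fintype (V n)] (G : ∀ n, SimpleGraph (V n))
    (φ : ∀ n, V (n + 1) → V n) : IsCompact (simplicialLimit V G φ) := by
  classical
  have hbox : IsCompact (Set.pi univ fun n : ℕ => Set.pi univ fun _ : V n => Icc (0 : ℝ) 1) :=
    isCompact_univ_pi fun n => isCompact_univ_pi fun _ => isCompact_Icc
  refine hbox.of_isClosed_subset ?_ ?_
  · have hc : ∀ n, ∀ v : V n, Continuous fun x : ∀ n, V n → ℝ => x n v := fun n v =>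
      (continuous_apply v).comp (continuous_apply n)
    have h1 : IsClosed {x : ∀ n, V n → ℝ | ∀ n v, 0 ≤ x n v} := by
      simp only [Set.ofPred_forall]
      exact isClosed_iInter fun n => isClosed_iInter fun v => isClosed_le continuous_const (hc n v)
    have h2 : IsClosed {x : ∀ n, V n → ℝ | ∀ n, ∑ v, x n v = 1} := by
      simp only [Set.ofPred_forall]
      exact isClosed_iInter fun n => isClosed_eq (continuous_finsetSum _ fun v _ => hc n v)
        continuous_const
    have h3 : IsClosed {x : ∀ n, V n → ℝ | ∀ n u v, u ≠ v → ¬ (G n).Adj u v →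
        x n u * x n v = 0} := by
      simp only [Set.ofPred_forall]
      exact isClosed_iInter fun n => isClosed_iInter fun u => isClosed_iInter fun v =>
        isClosed_iInter fun _ => isClosed_iInter fun _ =>
          isClosed_eq ((hc n u).mul (hc n v)) continuous_const
    have h4 : IsClosed {x : ∀ n, V n → ℝ | ∀ n v, x n v = push (φ n) (x (n + 1)) v} := by
      simp only [Set.ofPred_forall]
      refine isClosed_iInter fun n => isClosed_iInter fun v => isClosed_eq (hc n v) ?_
      unfold push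
      exact continuous_finsetSum _ fun w _ => hc (n + 1) w
    have he : simplicialLimit V G φ = {x | ∀ n v, 0 ≤ x n v} ∩ {x | ∀ n, ∑ v, x n v = 1} ∩
        {x | ∀ n u v, u ≠ v → ¬ (G n).Adj u v → x n u * x n v = 0} ∩
        {x | ∀ n v, x n v = push (φ n) (x (n + 1)) v} := by
      ext x
      constructor
      · intro hx
        refine ⟨⟨⟨fun n v => (hx n).1.1 v, fun n => (hx n).1.2.1⟩, ?_⟩, fun n v =>
          congrFun (hx n).2 v⟩
        intro n u v huv hA
        by_contra hne
        exact hA ((hx n).1.2.2 u v huv (left_ne_zero_of_mul hne) (right_ne_zero_of_mul hne))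
      · rintro ⟨⟨⟨a1, a2⟩, a3⟩, a4⟩ n
        refine ⟨⟨a1 n, a2 n, ?_⟩, funext (a4 n)⟩
        intro u v huv hu hv
        by_contra hA
        exact (mul_ne_zero hu hv) (a3 n u v huv hA)
    rw [he]
    exact ((h1.inter h2).inter h3).inter h4
  · intro x hx n _ v _
    refine ⟨(hx n).1.1 v, ?_⟩
    rw [← (hx n).1.2.1]
    exact Finset.single_le_sum (f := x n) (fun i _ => (hx n).1.1 i) (Finset.mem_univ v)

theorem result (V : ℕ → Type) [∀ n, Fintype (V n)] (G : ∀ n, SimpleGraph (V n))
    (hG : ∀ n, (G n).IsTree)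
    (φ : ∀ n, V (n + 1) → V n) (hφ : ∀ n, Function.Surjective (φ n))
    (hadj : ∀ n a b, (G (n + 1)).Adj a b → φ n a = φ n b ∨ (G n).Adj (φ n a) (φ n b))
    (X : Type) [MetricSpace X] (hX : Nonempty (X ≃ₜ simplicialLimit V G φ))
    (S : Set (Set (EuclideanSpace ℝ (Fin 2)))) (hS : ¬ S.Countable) (hdis : S.PairwiseDisjoint id)
    (hcopy : ∀ A ∈ S, Nonempty (A ≃ₜ X)) :
    (∀ ε : ℝ, 0 < ε → ∃ g : X → ℝ, Continuous g ∧ ∀ x y, g x = g y → dist x y < ε) ∧
      ∀ Z : Set (X × X), IsCompact Z → IsConnected Z → Prod.fst '' Z = Prod.snd '' Z →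
        ∃ x, (x, x) ∈ Z := by
  obtain ⟨e⟩ := hX
  have hcs : CompactSpace (simplicialLimit V G φ) :=
    isCompact_iff_compactSpace.mp (isCompact_limit V G φ)
  have hc : CompactSpace X := e.symm.compactSpace
  obtain ⟨v⟩ := (hG 0).connected.nonempty
  obtain ⟨x₀, hx₀, -⟩ := exists_limit_pt hG hφ hadj 0 v v (Or.inl rfl) 0 le_rfl zero_le_one
  have hne : Nonempty X := ⟨e.symm ⟨x₀, hx₀⟩⟩
  obtain ⟨𝓕, h𝓕, hinj, hdisj⟩ := family_of_copies (X := X) S hS hdis hcopy
  have harc : ∀ ε : ℝ, 0 < ε → ∃ g : X → ℝ, Continuous g ∧ ∀ x y, g x = g y → dist x y < ε :=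
    fun ε hε => arcLike_of_copies hG hφ hadj e 𝓕 h𝓕 hinj hdisj ε hε
  exact ⟨harc, span_zero_of_arcLike harc⟩

end Pool.Agent.Results.MP_da225d_gt.SimplicialLimits
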